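import Pool.Agent.Lib.MP_3c695a_lc.Changes

set_option autoImplicit false

namespace Pool.Agent.Results.MP_3c695a_lc.AllLevels

open Pool.Agent.Lib.MP_3c695a_lc

/-- `X` has a computable approximation, starting with the empty set, whose value at `x` changes at
most `h x` times. -/
def ChangesAtMost (h : ℕ → ℕ) (X : Set ℕ) : Prop :=
  ∃ g : ℕ → ℕ → Bool, Computable₂ g ∧ (∀ x, g x 0 = false) ∧
    (∀ x, ∃ s₀, ∀ s, s₀ ≤ s → (g x s = true ↔ x ∈ X)) ∧
    ∀ x, {s | g x (s + 1) ≠ g x s}.encard ≤ h x

/-- The class `Σ⁻¹_m` of the Ershov hierarchy (the `m`-c.e. sets). -/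
def Ershov (m : ℕ) (X : Set ℕ) : Prop := ChangesAtMost (fun _ => m) X

/-- The class of the sets with a computable approximation, starting with the empty set, each change
of which is paid by an `r`-descent of a computable counter. For a computable ordinal and `r` its
(c.e.) order on notations this is a transfinite level of the Ershov hierarchy. -/
def ErshovRel (r : ℕ → ℕ → Prop) (X : Set ℕ) : Prop :=
  ∃ (g : ℕ → ℕ → Bool) (o : ℕ → ℕ → ℕ), Computable₂ g ∧ Computable₂ o ∧ (∀ x, g x 0 = false) ∧
    (∀ x, ∃ s₀, ∀ s, s₀ ≤ s → (g x s = true ↔ x ∈ X)) ∧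
    ∀ x s, (o x (s + 1) = o x s ∧ g x (s + 1) = g x s) ∨ r (o x (s + 1)) (o x s)

/-- The set of codes of the membership relation of a numbering. -/
def graph (π : ℕ × ℕ ≃ ℕ) (α : ℕ → Set ℕ) : Set ℕ := {y | ∃ x k, y = π (x, k) ∧ x ∈ α k}

/-- The set of codes of the equality relation of a numbering. -/
def theta (π : ℕ × ℕ ≃ ℕ) (α : ℕ → Set ℕ) : Set ℕ := {y | ∃ k l, y = π (k, l) ∧ α k = α l}

/-- For every computable pairing function and every c.e. well-founded relation `r` there is an
infinite family of sets with a positive numbering whose membership relation is c.e. (so that it is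
in `Σ⁻¹_m` for every `m ≥ 1`), while no one-to-one numbering of the family has a membership
relation which is `r`-c.e., or which has a computable approximation with computably bounded numbers
of changes (in particular none is in `Σ⁻¹_m`, whatever `m` is). -/
theorem result (π : ℕ × ℕ ≃ ℕ) (hπ : Computable π) (r : ℕ → ℕ → Prop) (hwf : WellFounded r)
    (hre : REPred fun p : ℕ × ℕ => r p.1 p.2) :
    ∃ 𝒜 : Set (Set ℕ), 𝒜.Infinite ∧
      (∃ α : ℕ → Set ℕ, Set.range α = 𝒜 ∧ (∀ m, 1 ≤ m → Ershov m (graph π α)) ∧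
        REPred fun y => y ∈ theta π α) ∧
      ∀ β : ℕ → Set ℕ, Set.range β = 𝒜 → Function.Injective β →
        (∀ m, ¬ Ershov m (graph π β)) ∧
        (∀ h : ℕ → ℕ, Computable h → ¬ ChangesAtMost h (graph π β)) ∧
        ¬ ErshovRel r (graph π β) := by
  obtain ⟨fr, hfr, hfr'⟩ := re_exists (rsum_re hre)
  have hwf' := rsum_wf hwf
  have hG : Appr (GG fr) := GG_appr hwf' hfr' hfr
  have hu : Computable fun n : ℕ => π n.unpair := hπ.comp Computable.unpair
  have hgr : REPred fun y => y ∈ graph π (S hG) := by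
    have h1 : REPred fun p : ℕ × ℕ => π p.2.unpair = p.1 :=
      (re_of_bool (eqb_comp.comp (hu.comp Computable.snd) Computable.fst)).of_eq
        fun p => by simp
    have h2 : REPred fun p : ℕ × ℕ => p.2.unpair.1 ∈ S hG p.2.unpair.2 :=
      re_comp (S_re hG) (g := fun p : ℕ × ℕ => (p.2.unpair.2, p.2.unpair.1))
        ((Computable.snd.comp (Computable.unpair.comp Computable.snd)).pair
          (Computable.fst.comp (Computable.unpair.comp Computable.snd)))
    refine (re_ex (re_and h1 h2)).of_eq fun y => ?_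
    constructor
    · rintro ⟨n, h3, h4⟩
      exact ⟨n.unpair.1, n.unpair.2, h3.symm, h4⟩
    · rintro ⟨x, k, rfl, h4⟩
      exact ⟨Nat.pair x k, by simp, by simpa using h4⟩
  have hth : REPred fun y => y ∈ theta π (S hG) := by
    have h1 : REPred fun p : ℕ × ℕ => π p.2.unpair = p.1 :=
      (re_of_bool (eqb_comp.comp (hu.comp Computable.snd) Computable.fst)).of_eq
        fun p => by simp
    have h2 : REPred fun p : ℕ × ℕ => S hG p.2.unpair.1 = S hG p.2.unpair.2 :=
      re_comp (theta_re hG) (g := fun p : ℕ × ℕ => p.2.unpair)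
        (Computable.unpair.comp Computable.snd)
    refine (re_ex (re_and h1 h2)).of_eq fun y => ?_
    constructor
    · rintro ⟨n, h3, h4⟩
      exact ⟨n.unpair.1, n.unpair.2, h3.symm, h4⟩
    · rintro ⟨x, k, rfl, h4⟩
      exact ⟨Nat.pair x k, by simp, by simpa using h4⟩
  -- the opponents
  have opp : ∀ β : ℕ → Set ℕ, Set.range β = Set.range (S hG) → Function.Injective β →
      ∀ (g : ℕ → ℕ → Bool) (o : ℕ → ℕ → ℕ), Computable₂ g → Computable₂ o →
      (∀ x, ∃ s₀, ∀ s, s₀ ≤ s → (g x s = true ↔ x ∈ graph π β)) →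
      (∀ x s, (o x (s + 1) = o x s ∧ g x (s + 1) = g x s) ∨ rsum r (o x (s + 1)) (o x s)) →
      False := by
    intro β hβ hi g o hg ho hlim hstep
    have hg' : Computable₂ fun y s : ℕ => g (π y.unpair) s :=
      hg.comp (hu.comp Computable.fst) Computable.snd
    have ho' : Computable₂ fun y s : ℕ => o (π y.unpair) s :=
      ho.comp (hu.comp Computable.fst) Computable.snd
    have hlim' : ∀ y : ℕ, ∃ s₀, ∀ s, s₀ ≤ s →
        (g (π y.unpair) s = true ↔ y ∈ {y : ℕ | y.unpair.1 ∈ β y.unpair.2}) := by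
      intro y
      obtain ⟨s₀, hs₀⟩ := hlim (π y.unpair)
      refine ⟨s₀, fun s hs => (hs₀ s hs).trans ?_⟩
      constructor
      · rintro ⟨x, k, h1, h2⟩
        have h3 := π.injective h1
        show y.unpair.1 ∈ β y.unpair.2
        rw [h3]
        exact h2
      · intro h1
        exact ⟨y.unpair.1, y.unpair.2, rfl, h1⟩
    obtain ⟨e, he⟩ := GG_univ hwf' hfr' {y : ℕ | y.unpair.1 ∈ β y.unpair.2}
      (fun y s => g (π y.unpair) s) (fun y s => o (π y.unpair) s) hg' ho' hlim'
      (fun y s => hstep (π y.unpair) s)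
    refine no_injective hG β hβ hi e fun x a => ?_
    obtain ⟨s₀, hs₀⟩ := he (Nat.pair x a)
    refine ⟨s₀, fun s hs => (hs₀ s hs).trans ?_⟩
    simp
  have hchg : ∀ β : ℕ → Set ℕ, Set.range β = Set.range (S hG) → Function.Injective β →
      ∀ h : ℕ → ℕ, Computable h → ¬ ChangesAtMost h (graph π β) := by
    rintro β hβ hi h hh ⟨g, hg, _, hlim, hc⟩
    obtain ⟨o, ho, ho'⟩ := changes_rel hh hg hc
    refine opp β hβ hi g (fun x s => 2 * o x s + 1) hg ?_ hlim fun x s => ?_
    · exact (Primrec.nat_add.to_comp).comp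
        ((Primrec.nat_mul.to_comp).comp (Computable.const 2) ho) (Computable.const 1)
    · rcases ho' x s with ⟨h1, h2⟩ | h1
      · left
        exact ⟨by simp only [h1], h2⟩
      · right
        right
        omega
  refine ⟨Set.range (S hG), S_infinite hG, ⟨S hG, rfl, fun m hm => re_changes hgr hm, hth⟩,
    fun β hβ hi => ⟨fun m => hchg β hβ hi _ (Computable.const m), hchg β hβ hi, ?_⟩⟩
  rintro ⟨g, o, hg, ho, _, hlim, hstep⟩
  refine opp β hβ hi g (fun x s => 2 * o x s) hg ?_ hlim fun x s => ?_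
  · exact (Primrec.nat_mul.to_comp).comp (Computable.const 2) ho
  · rcases hstep x s with ⟨h1, h2⟩ | h1
    · left
      exact ⟨by simp only [h1], h2⟩
    · right
      left
      refine ⟨by omega, by omega, ?_⟩
      simpa using h1

end Pool.Agent.Results.MP_3c695a_lc.AllLevels
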